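import Mathlib
import Pool.Agent.H42.MPath

namespace Pool.Agent.Results.MP_ebc4cb_lc.Q1

open Cardinal Ordinal

universe u

/-- The graph with vertex set `P` and edge set `E` is a path in the transfinite sense: for some
well-ordering of `P`, the earlier neighbours of each vertex are cofinal among its
predecessors. -/
def IsPath {V : Type u} (P : Set V) (E : Set (Sym2 V)) : Prop :=
  ∃ r : P → P → Prop, IsWellOrder P r ∧
    ∀ u v : P, r u v → ∃ w : P, (w = u ∨ r u w) ∧ r w v ∧ s(w.1, v.1) ∈ E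

/-- Every colouring of the pairs of `κ` with countably many colours has a monochromatic path of
size `κ`. -/
def InP (κ : Cardinal.{u}) : Prop :=
  ∀ c : Sym2 κ.ord.ToType → ℕ, ∃ (i : ℕ) (P : Set κ.ord.ToType) (E : Set (Sym2 κ.ord.ToType)),
    (∀ e ∈ E, ¬ e.IsDiag ∧ (∀ x ∈ e, x ∈ P) ∧ c e = i) ∧ IsPath P E ∧ #P = κ

theorem result (κ : Cardinal.{u}) (hκ : κ.IsStrongLimit) (h1 : ℵ₁ < κ.ord.cof)
    (h2 : κ.ord.cof < κ) : InP κ := by
  intro c
  obtain ⟨k, I, _, _, φ, p1, p2, p3⟩ := Pool.Agent.H42.MPath.main hκ h1 h2 (mk_ord_toType κ)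
    (fun x y => c s(x, y)) fun x y => by rw [Sym2.eq_swap]
  let e := Equiv.ofInjective φ p1
  refine ⟨k, Set.range φ, {e | ¬ e.IsDiag ∧ (∀ x ∈ e, x ∈ Set.range φ) ∧ c e = k}, fun _ h => h,
    ⟨fun x y => e.symm x < e.symm y, e.symm.injective.isWellOrder (· < ·), fun u v h => ?_⟩,
    (mk_range_eq φ p1).trans p2⟩
  obtain ⟨u, rfl⟩ := e.surjective u
  obtain ⟨v, rfl⟩ := e.surjective v
  simp only [Equiv.symm_apply_apply] at h
  obtain ⟨w, w1, w2, w3⟩ := p3 u v h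
  refine ⟨e w, ?_, by simpa using w2, ?_, ?_, w3⟩
  · simpa [eq_comm] using w1.eq_or_lt
  · exact fun d => w2.ne (p1 (Sym2.mk_isDiag_iff.1 d))
  · intro x hx
    rcases Sym2.mem_iff.1 hx with d | d <;> exact d ▸ Set.mem_range_self _

/-- The class of Q1 is nonempty: it contains the infinite cardinal `ℶ_(ω₂)`. -/
example : ℵ₀ ≤ ℶ_ (ω_ 2 : Ordinal.{u}) ∧ InP (ℶ_ (ω_ 2 : Ordinal.{u})) := by
  have hl : Order.IsSuccLimit (ω_ 2 : Ordinal.{u}) := isSuccLimit_ord (aleph0_le_aleph 2) |>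
    (ord_aleph 2 ▸ ·)
  have hc : (ℶ_ (ω_ 2 : Ordinal.{u})).ord.cof = ℵ_ 2 := by
    rw [show (ℶ_ (ω_ 2 : Ordinal.{u})).ord = (ord ∘ beth) (ω_ 2) from rfl,
      cof_map_of_isNormal (isNormal_ord.comp isNormal_beth) hl,
      show (2 : Ordinal.{u}) = 1 + 1 from one_add_one_eq_two.symm, cof_omega_add_one]
  refine ⟨aleph0_le_beth _, result _ (isStrongLimit_beth.2 hl.isSuccPrelimit) ?_ ?_⟩
  · rw [hc, aleph_lt_aleph]; simp
  · rw [hc]
    refine (aleph_le_beth 2).trans_lt (beth_lt_beth.2 ?_)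
    exact (Ordinal.natCast_lt_omega0 2).trans_le (omega0_le_omega 2)

end Pool.Agent.Results.MP_ebc4cb_lc.Q1
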